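import Mathlib

set_option autoImplicit false

/-!
# Random colourings and disjoint sets (MP_d7c7d1_co)
-/

namespace Pool.Agent.ABF

open Finset

variable {α : Type*} [Fintype α] [DecidableEq α]

/-- The number of the colourings which are constant `j` on `U`. -/
theorem card_const (k : ℕ) (j : Fin k) (U : Finset α) :
    ((univ : Finset (α → Fin k)).filter fun h => ∀ a ∈ U, h a = j).card
      = k ^ (Fintype.card α - U.card) := by
  have h1 : ((univ : Finset (α → Fin k)).filter fun h => ∀ a ∈ U, h a = j)
      = Fintype.piFinset fun a => if a ∈ U then {j} else univ := by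
    ext h
    rw [mem_filter, Fintype.mem_piFinset]
    constructor
    · rintro ⟨-, h2⟩ a
      by_cases ha : a ∈ U
      · simp [ha, h2 a ha]
      · simp [ha]
    · intro h2
      refine ⟨mem_univ _, fun a ha => ?_⟩
      have := h2 a
      simpa [ha] using this
  rw [h1, Fintype.card_piFinset]
  have h2 : ∀ a : α, (if a ∈ U then ({j} : Finset (Fin k)) else univ).card
      = if a ∈ U then 1 else k := by
    intro a
    split_ifs <;> simp
  rw [prod_congr rfl fun a _ => h2 a, prod_ite, prod_const_one, one_mul, prod_const]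
  congr 1
  rw [filter_not, card_sdiff_of_subset (filter_subset _ _), card_univ]
  congr 2
  ext a
  simp

/-- The indicator of `h = j` on `t`. -/
noncomputable def ind {k : ℕ} (j : Fin k) (h : α → Fin k) (t : Finset α) : ℝ :=
  if ∀ a ∈ t, h a = j then 1 else 0

/-- The exact number of the colourings in which no member of a family of disjoint triples has the
colour `j`. -/
theorem card_avoid (k : ℕ) (hk : 0 < k) (j : Fin k) (T : Finset (Finset α))
    (h3 : ∀ t ∈ T, t.card = 3) (hd : ∀ s ∈ T, ∀ t ∈ T, s ≠ t → Disjoint s t) :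
    (((univ : Finset (α → Fin k)).filter fun h => ∀ t ∈ T, ¬ ∀ a ∈ t, h a = j).card : ℝ)
      = (1 - 1 / (k : ℝ) ^ 3) ^ T.card * (k : ℝ) ^ Fintype.card α := by
  classical
  have hk' : (k : ℝ) ≠ 0 := by positivity
  have e1 : (((univ : Finset (α → Fin k)).filter fun h => ∀ t ∈ T, ¬ ∀ a ∈ t, h a = j).card : ℝ)
      = ∑ h : α → Fin k, ∏ t ∈ T, (1 + - ind j h t) := by
    rw [card_filter]
    push_cast
    refine sum_congr rfl fun h _ => ?_
    by_cases hh : ∀ t ∈ T, ¬ ∀ a ∈ t, h a = j
    · rw [if_pos hh]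
      symm
      refine prod_eq_one fun t ht => ?_
      unfold ind
      rw [if_neg (hh t ht)]
      norm_num
    · rw [if_neg hh]
      push Not at hh
      obtain ⟨t, ht, ht2⟩ := hh
      symm
      refine prod_eq_zero ht ?_
      unfold ind
      rw [if_pos ht2]
      norm_num
  have e2 : ∀ S ∈ T.powerset, ∑ h : α → Fin k, ∏ t ∈ S, (- ind j h t)
      = (k : ℝ) ^ Fintype.card α * ∏ t ∈ S, (- (1 / (k : ℝ) ^ 3)) := by
    intro S hS
    rw [mem_powerset] at hS
    have hU : (S.biUnion id).card = 3 * S.card := by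
      rw [card_biUnion]
      · have g : ∑ u ∈ S, (id u : Finset α).card = ∑ _u ∈ S, 3 :=
          sum_congr rfl fun t ht => h3 t (hS ht)
        rw [g]
        simp [mul_comm]
      · intro s hs t ht hst
        exact hd s (hS hs) t (hS ht) hst
    have hUle : 3 * S.card ≤ Fintype.card α := by
      rw [← hU]
      exact card_le_univ _
    have f1 : ∀ h : α → Fin k, ∏ t ∈ S, (- ind j h t)
        = (-1) ^ S.card * if ∀ a ∈ S.biUnion id, h a = j then 1 else 0 := by
      intro h
      rw [prod_neg]
      congr 1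
      by_cases hh : ∀ a ∈ S.biUnion id, h a = j
      · rw [if_pos hh]
        refine prod_eq_one fun t ht => ?_
        unfold ind
        rw [if_pos]
        intro a ha
        exact hh a (mem_biUnion.2 ⟨t, ht, ha⟩)
      · rw [if_neg hh]
        push Not at hh
        obtain ⟨a, ha, ha2⟩ := hh
        obtain ⟨t, ht, ha3⟩ := mem_biUnion.1 ha
        refine prod_eq_zero ht ?_
        unfold ind
        rw [if_neg]
        intro h4
        exact ha2 (h4 a ha3)
    rw [sum_congr rfl fun h _ => f1 h, ← mul_sum]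
    have f2 : ∑ h : α → Fin k, (if ∀ a ∈ S.biUnion id, h a = j then (1 : ℝ) else 0)
        = (k : ℝ) ^ (Fintype.card α - 3 * S.card) := by
      have := card_const k j (S.biUnion id)
      rw [card_filter, hU] at this
      exact_mod_cast this
    rw [f2, prod_neg, prod_const]
    have f3 : (k : ℝ) ^ Fintype.card α
        = (k : ℝ) ^ (Fintype.card α - 3 * S.card) * ((k : ℝ) ^ 3) ^ S.card := by
      rw [← pow_mul, ← pow_add]
      congr 1
      omega
    rw [f3, one_div, inv_pow]
    field_simp
  rw [e1]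
  have e3 : ∀ h : α → Fin k, ∏ t ∈ T, (1 + - ind j h t)
      = ∑ S ∈ T.powerset, ∏ t ∈ T \ S, (- ind j h t) := by
    intro h
    rw [prod_add]
    simp
  have e4 : (1 - 1 / (k : ℝ) ^ 3) ^ T.card
      = ∑ S ∈ T.powerset, ∏ t ∈ T \ S, (- (1 / (k : ℝ) ^ 3)) := by
    rw [← prod_const]
    rw [show (∏ _t ∈ T, (1 - 1 / (k : ℝ) ^ 3)) = ∏ _t ∈ T, (1 + - (1 / (k : ℝ) ^ 3)) from
      prod_congr rfl fun t _ => by ring]
    rw [prod_add]
    simp
  rw [sum_congr rfl fun h _ => e3 h, sum_comm, e4, sum_mul]
  refine sum_congr rfl fun S hS => ?_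
  rw [e2 (T \ S) (mem_powerset.2 sdiff_subset), mul_comm]

end Pool.Agent.ABF
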