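import Pool.Agent.ABF.Plat

set_option autoImplicit false

/-!
# Triples for plateaued APN functions (MP_d7c7d1_co)
-/

namespace Pool.Agent.ABF

open Finset

variable {n : ℕ}

/-- The number of the triples in terms of the amplitudes. -/
theorem triple_sum {F : (Fin n → ZMod 2) → (Fin n → ZMod 2)} {L : (Fin n → ZMod 2) → ℤ}
    (hL : ∀ v, v ≠ 0 → amp F v (L v)) (x y : Fin n → ZMod 2) :
    (2 : ℤ) ^ n * ((sol F x y).card : ℤ)
      = 2 ^ n * 2 ^ n + ∑ v ∈ univ.erase 0, L v * sgn (v ⬝ᵥ (F x + y)) := by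
  classical
  have hq : (0 : ℤ) < 2 ^ n := by positivity
  have h1 : ∑ u : Fin n → ZMod 2, ∑ v : Fin n → ZMod 2, walsh F u v ^ 3 * sgn (u ⬝ᵥ x + v ⬝ᵥ y)
      = 2 ^ n * 2 ^ n * ((sol F x y).card : ℤ) := by
    simp_rw [walsh_cube, sum_family]
    congr 2
    unfold sol
    congr 1
    ext t
    simp only [mem_filter, mem_univ, true_and, add_eq_zero_iff']
  have h2 : ∀ v : Fin n → ZMod 2, v ≠ 0 →
      ∑ u : Fin n → ZMod 2, walsh F u v ^ 3 * sgn (u ⬝ᵥ x + v ⬝ᵥ y)
      = 2 ^ n * (L v * sgn (v ⬝ᵥ (F x + y))) := by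
    intro v hv
    have h3 : ∀ u : Fin n → ZMod 2, walsh F u v ^ 3 * sgn (u ⬝ᵥ x + v ⬝ᵥ y)
        = L v * (walsh F u v * sgn (u ⬝ᵥ x + v ⬝ᵥ y)) := by
      intro u
      rcases hL v hv u with h | h
      · rw [h]
        ring
      · rw [← h]
        ring
    simp_rw [h3]
    rw [← mul_sum, slice]
    ring
  have h3 : ∑ u : Fin n → ZMod 2, walsh F u 0 ^ 3 * sgn (u ⬝ᵥ x + 0 ⬝ᵥ y) = (2 ^ n) ^ 3 := by
    rw [sum_eq_single 0]
    · rw [walsh_zero]
      simp [sgn]
    · intro u _ hu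
      rw [walsh_zero, if_neg hu]
      ring
    · simp
  rw [sum_comm, ← add_sum_erase univ _ (mem_univ (0 : Fin n → ZMod 2)), h3,
    sum_congr rfl fun v hv => h2 v (mem_erase.1 hv).1, ← mul_sum] at h1
  apply mul_left_cancel₀ hq.ne'
  linarith

/-- The trivial triples. -/
theorem sol_diag {F : (Fin n → ZMod 2) → (Fin n → ZMod 2)} (hF : Sid F) (x : Fin n → ZMod 2) :
    (sol F x (F x)).card + 2 ≤ 3 * 2 ^ n := by
  classical
  obtain ⟨A1, hA1⟩ : ∃ A1, A1 = (univ : Finset (Fin n → ZMod 2)).image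
    fun a => (a, a, x) := ⟨_, rfl⟩
  obtain ⟨A2, hA2⟩ : ∃ A2, A2 = ((univ : Finset (Fin n → ZMod 2)).erase x).image
    fun a => (a, x, a) := ⟨_, rfl⟩
  obtain ⟨A3, hA3⟩ : ∃ A3, A3 = ((univ : Finset (Fin n → ZMod 2)).erase x).image
    fun a => (x, a, a) := ⟨_, rfl⟩
  have c1 : A1.card ≤ 2 ^ n := by
    rw [hA1]
    refine card_image_le.trans ?_
    rw [card_univ, card_vec]
  have c2 : A2.card ≤ 2 ^ n - 1 := by
    rw [hA2]
    refine card_image_le.trans ?_
    rw [card_erase_of_mem (mem_univ _), card_univ, card_vec]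
  have c3 : A3.card ≤ 2 ^ n - 1 := by
    rw [hA3]
    refine card_image_le.trans ?_
    rw [card_erase_of_mem (mem_univ _), card_univ, card_vec]
  have hsub : sol F x (F x) ⊆ A1 ∪ A2 ∪ A3 := by
    rintro ⟨a, b, c⟩ ht
    rw [mem_sol] at ht
    obtain ⟨h1, h2⟩ := ht
    rcases hF a b c x h1 h2 with h | h | h
    · subst h
      rw [add_self_eq, zero_add] at h1
      subst h1
      refine mem_union_left _ (mem_union_left _ ?_)
      rw [hA1]
      exact mem_image.2 ⟨a, mem_univ _, rfl⟩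
    · subst h
      rw [add_comm a b, add_assoc, add_self_eq, add_zero] at h1
      subst h1
      by_cases h3 : a = b
      · subst h3
        refine mem_union_left _ (mem_union_left _ ?_)
        rw [hA1]
        exact mem_image.2 ⟨a, mem_univ _, rfl⟩
      · refine mem_union_left _ (mem_union_right _ ?_)
        rw [hA2]
        exact mem_image.2 ⟨a, mem_erase.2 ⟨h3, mem_univ _⟩, rfl⟩
    · subst h
      rw [add_assoc, add_self_eq, add_zero] at h1
      subst h1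
      by_cases h3 : b = a
      · subst h3
        refine mem_union_left _ (mem_union_left _ ?_)
        rw [hA1]
        exact mem_image.2 ⟨b, mem_univ _, rfl⟩
      · refine mem_union_right _ ?_
        rw [hA3]
        exact mem_image.2 ⟨b, mem_erase.2 ⟨h3, mem_univ _⟩, rfl⟩
  have h1 := card_le_card hsub
  have h2 := card_union_le (A1 ∪ A2) A3
  have h3 := card_union_le A1 A2
  have h4 : 1 ≤ 2 ^ n := Nat.one_le_two_pow
  omega

/-- The number of triples off the graph in terms of the amplitudes in a hyperplane. -/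
theorem sol_lower {F : (Fin n → ZMod 2) → (Fin n → ZMod 2)} (hF : Sid F)
    {L : (Fin n → ZMod 2) → ℤ} (hL : ∀ v, v ≠ 0 → amp F v (L v)) (x y : Fin n → ZMod 2) :
    2 * ∑ v ∈ (hyp (F x + y)).erase 0, L v + 2 * 2 ^ n
      ≤ 2 ^ n * ((sol F x y).card : ℤ) + 2 ^ n * 2 ^ n := by
  classical
  have h1 := triple_sum hL x y
  have h2 := triple_sum hL x (F x)
  have h3 : ((sol F x (F x)).card : ℤ) + 2 ≤ 3 * 2 ^ n := by exact_mod_cast sol_diag hF x
  have hq : (0 : ℤ) < 2 ^ n := by positivity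
  have h4 : ∑ v ∈ univ.erase 0, L v * sgn (v ⬝ᵥ (F x + F x)) = ∑ v ∈ univ.erase 0, L v := by
    refine sum_congr rfl fun v _ => ?_
    rw [add_self_eq, dotProduct_zero, sgn_zero, mul_one]
  have h5 : ∑ v ∈ univ.erase 0, L v * sgn (v ⬝ᵥ (F x + y)) + ∑ v ∈ univ.erase 0, L v
      = 2 * ∑ v ∈ (hyp (F x + y)).erase 0, L v := by
    have h6 : (hyp (F x + y)).erase 0 = (univ.erase 0).filter fun v => v ⬝ᵥ (F x + y) = 0 := by
      ext v
      simp only [mem_erase, mem_hyp, mem_filter, mem_univ, and_true]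
    rw [h6, sum_filter, mul_sum, ← sum_add_distrib]
    refine sum_congr rfl fun v _ => ?_
    generalize v ⬝ᵥ (F x + y) = t
    have ht : t = 0 ∨ t = 1 := by
      revert t
      decide
    rcases ht with rfl | rfl
    · simp only [sgn_zero, if_true]
      ring
    · have h7 : sgn 1 = -1 := rfl
      rw [h7, if_neg (by decide)]
      ring
  rw [h4] at h2
  have h8 : (2 : ℤ) ^ n * (((sol F x (F x)).card : ℤ) + 2) ≤ 2 ^ n * (3 * 2 ^ n) :=
    mul_le_mul_of_nonneg_left h3 hq.le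
  nlinarith

theorem card_erase_hyp {z : Fin n → ZMod 2} (hz : z ≠ 0) :
    2 * (((hyp z).erase 0).card : ℤ) = 2 ^ n - 2 := by
  classical
  have h0 : (0 : Fin n → ZMod 2) ∈ hyp z := (isSub_hyp z).1
  have h1 : ((hyp z).card : ℤ) = ((hyp z).erase 0).card + 1 := by
    rw [card_erase_of_mem h0, Nat.cast_sub (card_pos.2 ⟨0, h0⟩)]
    push_cast
    ring
  have h2 : 2 * ((hyp z).card : ℤ) = 2 ^ n := by exact_mod_cast card_hyp hz
  linarith

/-- Odd dimension: at least `q - 2` triples. -/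
theorem sol_odd {F : (Fin n → ZMod 2) → (Fin n → ZMod 2)} (hF : Sid F) (hP : IsPlateaued F)
    (hn : Odd n) {x y : Fin n → ZMod 2} (hy : y ≠ F x) :
    2 ^ n ≤ (sol F x y).card + 2 := by
  classical
  have hz : F x + y ≠ 0 := fun h => hy ((add_eq_zero_iff' _ _).1 h).symm
  choose L hL using fun v : {v : Fin n → ZMod 2 // v ≠ 0} => hP v.1 v.2
  obtain ⟨L', hL'⟩ : ∃ L' : (Fin n → ZMod 2) → ℤ,
      L' = fun v => if h : v ≠ 0 then L ⟨v, h⟩ else 0 := ⟨_, rfl⟩
  have hamp : ∀ v, v ≠ 0 → amp F v (L' v) := by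
    intro v hv u
    have h1 : L' v = L ⟨v, hv⟩ := by
      rw [hL']
      exact dif_pos hv
    rw [h1]
    exact hL ⟨v, hv⟩ u
  have h1 := sol_lower hF hamp x y
  have h2 : (((hyp (F x + y)).erase 0).card : ℤ) * (2 * 2 ^ n)
      ≤ ∑ v ∈ (hyp (F x + y)).erase 0, L' v := by
    rw [← nsmul_eq_mul]
    exact card_nsmul_le_sum _ _ _ fun v hv => amp_odd (hamp v (mem_erase.1 hv).1) hn
  have h3 := card_erase_hyp hz
  have hq : (0 : ℤ) < 2 ^ n := by positivity
  have h4 : (2 : ℤ) ^ n * (2 ^ n) ≤ 2 ^ n * ((sol F x y).card + 2) := by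
    have h5 : 2 * ((((hyp (F x + y)).erase 0).card : ℤ) * (2 * 2 ^ n))
        = (2 ^ n - 2) * (2 * 2 ^ n) := by
      rw [← h3]
      ring
    nlinarith
  have h5 := le_of_mul_le_mul_left h4 hq
  exact_mod_cast h5

/-- Even dimension `2m`: at least `6 (2^(m-1) - 1)` triples. -/
theorem sol_even {m : ℕ} (hm : 2 ≤ m) {F : (Fin (m + m) → ZMod 2) → (Fin (m + m) → ZMod 2)}
    (hF : Sid F) (hP : IsPlateaued F) {x y : Fin (m + m) → ZMod 2} (hy : y ≠ F x) :
    6 * (2 ^ (m - 1) - 1) ≤ (sol F x y).card := by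
  classical
  have hz : F x + y ≠ 0 := fun h => hy ((add_eq_zero_iff' _ _).1 h).symm
  choose L hL using fun v : {v : Fin (m + m) → ZMod 2 // v ≠ 0} => hP v.1 v.2
  obtain ⟨L', hL'⟩ : ∃ L' : (Fin (m + m) → ZMod 2) → ℤ,
      L' = fun v => if h : v ≠ 0 then L ⟨v, h⟩ else 0 := ⟨_, rfl⟩
  have hamp : ∀ v, v ≠ 0 → amp F v (L' v) := by
    intro v hv u
    have h1 : L' v = L ⟨v, hv⟩ := by
      rw [hL']
      exact dif_pos hv
    rw [h1]
    exact hL ⟨v, hv⟩ u
  have h1 := sol_lower hF hamp x y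
  obtain ⟨q, hq⟩ : ∃ q : ℤ, q = 2 ^ (m + m) := ⟨_, rfl⟩
  have hq0 : 0 < q := by rw [hq]; positivity
  obtain ⟨S, hS⟩ : ∃ S, S = (hyp (F x + y)).erase 0 := ⟨_, rfl⟩
  obtain ⟨B, hB⟩ : ∃ B, B = S.filter fun v => L' v ≠ q := ⟨_, rfl⟩
  have hB0 : (0 : Fin (m + m) → ZMod 2) ∉ B := by
    rw [hB, hS]
    simp
  have h2 : 2 ^ (m - 1) ≤ B.card + 1 := by
    refine nonbent hm F hz B hB0 fun v hv hv0 hvB => ?_
    have h3 : L' v = q := by
      by_contra hne
      apply hvB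
      rw [hB, hS]
      exact mem_filter.2 ⟨mem_erase.2 ⟨hv0, hv⟩, hne⟩
    rw [← hq, ← h3]
    exact hamp v hv0
  have h3 : (S.card : ℤ) * q + (B.card : ℤ) * (3 * q) ≤ ∑ v ∈ S, L' v := by
    have h4 : (S.card : ℤ) * q + (B.card : ℤ) * (3 * q)
        = ∑ v ∈ S, (q + if L' v ≠ q then 3 * q else 0) := by
      rw [sum_add_distrib, sum_const, nsmul_eq_mul, ← sum_filter, ← hB, sum_const, nsmul_eq_mul]
    rw [h4]
    refine sum_le_sum fun v hv => ?_
    rw [hS] at hv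
    rcases amp_even (hamp v (mem_erase.1 hv).1) ⟨m, rfl⟩ with h | h
    · rw [← hq] at h
      rw [h]
      simp
    · rw [← hq] at h
      split_ifs <;> linarith
  have h4 := card_erase_hyp hz
  rw [← hS, ← hq] at h4
  rw [← hS, ← hq] at h1
  have h5 : q * (6 * (B.card : ℤ)) ≤ q * ((sol F x y).card : ℤ) := by
    have h6 : 2 * ((S.card : ℤ) * q) = (q - 2) * q := by
      rw [← h4]
      ring
    nlinarith
  have h6 := le_of_mul_le_mul_left h5 hq0
  have h7 : 6 * B.card ≤ (sol F x y).card := by exact_mod_cast h6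
  omega

end Pool.Agent.ABF
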