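import Pool.Agent.ABF.Det
import Pool.Agent.ABF.Trip

set_option autoImplicit false

/-!
# Counting functions which are determined by few values (MP_d7c7d1_co)
-/

namespace Pool.Agent.ABF

open Finset

variable {n : ℕ}

theorem exists_enc {α : Type*} (S : Finset α) (m : ℕ) (h : S.card ≤ m) :
    ∃ f : Fin m → Option α, ∀ a, a ∈ S ↔ ∃ i, f i = some a := by
  refine ⟨fun i => S.toList[(i : ℕ)]?, fun a => ?_⟩
  rw [← mem_toList, List.mem_iff_getElem?]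
  constructor
  · rintro ⟨i, hi⟩
    have h1 : i < S.toList.length := (List.getElem?_eq_some_iff.1 hi).1
    rw [length_toList] at h1
    exact ⟨⟨i, h1.trans_le h⟩, hi⟩
  · rintro ⟨i, hi⟩
    exact ⟨i, hi⟩

/-- Counting. -/
theorem card_le (P : ((Fin n → ZMod 2) → (Fin n → ZMod 2)) → Prop) (hP : ∀ F, P F → Sid F) (m : ℕ)
    (hdet : ∀ F : (Fin n → ZMod 2) → (Fin n → ZMod 2), P F →
      ∃ A : Finset (Fin n → ZMod 2), A.card ≤ m ∧
        ∀ G : (Fin n → ZMod 2) → (Fin n → ZMod 2), Sid G → (∀ a ∈ A, G a = F a) → G = F) :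
    Nat.card {F : (Fin n → ZMod 2) → (Fin n → ZMod 2) // P F} ≤ 2 ^ ((2 * n + 1) * m) := by
  classical
  obtain ⟨R, hR⟩ : ∃ R : (Fin m → Option ((Fin n → ZMod 2) × (Fin n → ZMod 2))) →
      {F : (Fin n → ZMod 2) → (Fin n → ZMod 2) // P F} → Prop, R = fun f G =>
      ∃ B : Finset (Fin n → ZMod 2), ∀ p, p ∈ B.image (fun a => (a, G.1 a)) ↔
        ∃ i, f i = some p := ⟨_, rfl⟩
  have h1 : ∀ F : {F : (Fin n → ZMod 2) → (Fin n → ZMod 2) // P F},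
      ∃ f : Fin m → Option ((Fin n → ZMod 2) × (Fin n → ZMod 2)),
        R f F ∧ ∀ G, R f G → G = F := by
    rintro ⟨F, hF⟩
    obtain ⟨A, hA, hA2⟩ := hdet F hF
    obtain ⟨f, hf⟩ := exists_enc (A.image fun a => (a, F a)) m (card_image_le.trans hA)
    rw [hR]
    refine ⟨f, ⟨A, hf⟩, ?_⟩
    rintro ⟨G, hG⟩ ⟨B, hB⟩
    refine Subtype.ext (hA2 G (hP G hG) fun a ha => ?_)
    have h2 : (a, F a) ∈ B.image (fun b => (b, G b)) := by
      rw [hB, ← hf]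
      exact mem_image_of_mem _ ha
    obtain ⟨b, -, hb⟩ := mem_image.1 h2
    obtain ⟨h3, h4⟩ := Prod.ext_iff.1 hb
    simp only at h3 h4
    subst h3
    exact h4
  choose f hf1 hf2 using h1
  have hinj : Function.Injective f := by
    intro F G h
    refine hf2 G F ?_
    rw [← h]
    exact hf1 F
  have h3 := Nat.card_le_card_of_injective f hinj
  rw [Nat.card_eq_fintype_card (α := Fin m → Option ((Fin n → ZMod 2) × (Fin n → ZMod 2))),
    Fintype.card_fun, Fintype.card_option, Fintype.card_prod, card_vec, Fintype.card_fin] at h3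
  refine h3.trans ?_
  rw [pow_mul]
  refine Nat.pow_le_pow_left ?_ m
  have h4 : 2 ^ (2 * n + 1) = 2 ^ n * 2 ^ n + 2 ^ n * 2 ^ n := by ring
  have h5 : 1 ≤ 2 ^ n * 2 ^ n := Nat.mul_pos (by positivity) (by positivity)
  rw [h4]
  exact Nat.add_le_add_left h5 _

/-- The number of functions. -/
theorem card_trivial (P : ((Fin n → ZMod 2) → (Fin n → ZMod 2)) → Prop) :
    Nat.card {F : (Fin n → ZMod 2) → (Fin n → ZMod 2) // P F} ≤ 2 ^ (n * 2 ^ n) := by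
  classical
  have h1 := Nat.card_le_card_of_injective
    (fun F : {F : (Fin n → ZMod 2) → (Fin n → ZMod 2) // P F} => F.1) Subtype.val_injective
  rw [Nat.card_eq_fintype_card (α := (Fin n → ZMod 2) → (Fin n → ZMod 2)),
    Fintype.card_fun, card_vec, ← pow_mul] at h1
  exact h1

theorem big (n : ℕ) (hn : 12 ≤ n) : (270 : ℝ) * n ≤ 2 ^ n ∧ (4096 : ℝ) ≤ 2 ^ n := by
  have h : ∀ m : ℕ, 270 * (12 + m) ≤ 2 ^ (12 + m) ∧ 4096 ≤ 2 ^ (12 + m) := by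
    intro m
    induction m with
    | zero => norm_num
    | succ m ih =>
      obtain ⟨h1, h2⟩ := ih
      have h3 : 2 ^ (12 + (m + 1)) = 2 * 2 ^ (12 + m) := by ring
      rw [h3]
      constructor <;> omega
  obtain ⟨m, rfl⟩ := Nat.exists_eq_add_of_le hn
  obtain ⟨h1, h2⟩ := h m
  constructor
  · exact_mod_cast h1
  · exact_mod_cast h2

theorem exists_k (Q c : ℝ) (hc : 0 < c) (h1 : 27 * c ≤ Q) :
    ∃ k : ℕ, 0 < k ∧ (k : ℝ) ^ 3 * c ≤ Q ∧ 27 * Q ≤ 64 * k ^ 3 * c := by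
  have hQ : 0 ≤ Q := by linarith
  obtain ⟨s, hs0, hs⟩ : ∃ s : ℝ, 0 ≤ s ∧ s ^ 3 * c = Q := by
    refine ⟨(Q / c) ^ (1 / 3 : ℝ), by positivity, ?_⟩
    rw [← Real.rpow_natCast, ← Real.rpow_mul (by positivity)]
    norm_num
    field_simp
  have hs3 : 3 ≤ s := by
    by_contra hcon
    push Not at hcon
    have h2 : s ^ 3 < 3 ^ 3 := pow_lt_pow_left₀ hcon hs0 (by norm_num)
    have h3 : s ^ 3 * c < 3 ^ 3 * c := mul_lt_mul_of_pos_right h2 hc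
    rw [hs] at h3
    linarith
  have hk3 : 3 ≤ ⌊s⌋₊ := Nat.le_floor (by exact_mod_cast hs3)
  have hk3' : (3 : ℝ) ≤ (⌊s⌋₊ : ℝ) := by exact_mod_cast hk3
  have hks : (⌊s⌋₊ : ℝ) ≤ s := Nat.floor_le hs0
  have hsk : s < (⌊s⌋₊ : ℝ) + 1 := Nat.lt_floor_add_one s
  refine ⟨⌊s⌋₊, by omega, ?_, ?_⟩
  · rw [← hs]
    exact mul_le_mul_of_nonneg_right (pow_le_pow_left₀ (by positivity) hks 3) hc.le
  · have h4 : 3 * s ≤ 4 * (⌊s⌋₊ : ℝ) := by linarith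
    have h5 : (3 * s) ^ 3 ≤ (4 * (⌊s⌋₊ : ℝ)) ^ 3 := pow_le_pow_left₀ (by positivity) h4 3
    have h6 : (3 * s) ^ 3 * c ≤ (4 * (⌊s⌋₊ : ℝ)) ^ 3 * c :=
      mul_le_mul_of_nonneg_right h5 hc.le
    have h7 : (3 * s) ^ 3 * c = 27 * Q := by rw [← hs]; ring
    have h8 : (4 * (⌊s⌋₊ : ℝ)) ^ 3 * c = 64 * (⌊s⌋₊ : ℝ) ^ 3 * c := by ring
    linarith

theorem cond (n k T : ℕ) (hn : 0 < n) (hk : 0 < k) (hk3 : (k : ℝ) ^ 3 ≤ 2 ^ n)
    (hT : 1.66 * (n : ℝ) * k ^ 3 ≤ T) :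
    (k : ℝ) * ((2 ^ n) * (2 ^ n)) * (1 - 1 / (k : ℝ) ^ 3) ^ T < 1 := by
  have hn0 : (0 : ℝ) < n := by exact_mod_cast hn
  have hk1 : (1 : ℝ) ≤ k := by exact_mod_cast hk
  have hk31 : (1 : ℝ) ≤ (k : ℝ) ^ 3 := one_le_pow₀ hk1
  have h1 : 1 - 1 / (k : ℝ) ^ 3 ≤ Real.exp (-(1 / (k : ℝ) ^ 3)) := by
    have := Real.add_one_le_exp (-(1 / (k : ℝ) ^ 3))
    linarith
  have h0 : 0 ≤ 1 - 1 / (k : ℝ) ^ 3 := by
    rw [sub_nonneg, div_le_one (by positivity)]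
    exact hk31
  have h2 : (1 - 1 / (k : ℝ) ^ 3) ^ T ≤ Real.exp (-((T : ℝ) / (k : ℝ) ^ 3)) := by
    refine (pow_le_pow_left₀ h0 h1 T).trans_eq ?_
    rw [← Real.exp_nat_mul]
    congr 1
    ring
  have h3 : 1.66 * (n : ℝ) ≤ T / (k : ℝ) ^ 3 := by
    rw [le_div_iff₀ (by positivity)]
    exact hT
  have hlog : Real.log 2 < 0.6931471808 := Real.log_two_lt_d9
  have h5 : (2 : ℝ) ^ n = Real.exp (n * Real.log 2) := by
    rw [Real.exp_nat_mul, Real.exp_log (by norm_num)]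
  have h4 : (k : ℝ) ≤ Real.exp (n * Real.log 2 / 3) := by
    have h7 : (Real.exp (n * Real.log 2 / 3)) ^ 3 = 2 ^ n := by
      rw [h5, ← Real.exp_nat_mul]
      congr 1
      push_cast
      ring
    rw [← h7] at hk3
    exact le_of_pow_le_pow_left₀ (by norm_num) (by positivity) hk3
  have h8 : (k : ℝ) * ((2 ^ n) * (2 ^ n)) * (1 - 1 / (k : ℝ) ^ 3) ^ T
      ≤ Real.exp (n * Real.log 2 / 3) * (Real.exp (n * Real.log 2) * Real.exp (n * Real.log 2))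
        * Real.exp (-(1.66 * (n : ℝ))) := by
    rw [← h5]
    have h9 : Real.exp (-((T : ℝ) / (k : ℝ) ^ 3)) ≤ Real.exp (-(1.66 * (n : ℝ))) :=
      Real.exp_le_exp.2 (neg_le_neg h3)
    exact mul_le_mul (mul_le_mul_of_nonneg_right h4 (by positivity)) (h2.trans h9)
      (pow_nonneg h0 _) (by positivity)
  refine h8.trans_lt ?_
  rw [← Real.exp_add, ← Real.exp_add, ← Real.exp_add, Real.exp_lt_one_iff]
  nlinarith

end Pool.Agent.ABF
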