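import Pool.Agent.ABF.Walsh
import Pool.Agent.ABF.Colour

set_option autoImplicit false

/-!
# Functions determined by few values (MP_d7c7d1_co)
-/

namespace Pool.Agent.ABF

open Finset

variable {n : ℕ}

/-- The members of a triple off the graph are different. -/
theorem distinct {F : (Fin n → ZMod 2) → (Fin n → ZMod 2)} {x y a b c : Fin n → ZMod 2}
    (hy : y ≠ F x) (h : (a, b, c) ∈ sol F x y) : a ≠ b ∧ a ≠ c ∧ b ≠ c := by
  rw [mem_sol] at h
  obtain ⟨h1, h2⟩ := h
  refine ⟨?_, ?_, ?_⟩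
  · rintro rfl
    rw [add_self_eq, zero_add] at h1 h2
    rw [h1] at h2
    exact hy h2.symm
  · rintro rfl
    rw [add_comm a b, add_assoc, add_self_eq, add_zero] at h1
    rw [add_comm (F a) (F b), add_assoc, add_self_eq, add_zero, h1] at h2
    exact hy h2.symm
  · rintro rfl
    rw [add_assoc, add_self_eq, add_zero] at h1 h2
    rw [h1] at h2
    exact hy h2.symm

/-- The support of a triple. -/
def supp (t : (Fin n → ZMod 2) × (Fin n → ZMod 2) × (Fin n → ZMod 2)) :
    Finset (Fin n → ZMod 2) := {t.1, t.2.1, t.2.2}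

/-- The supports of the triples. -/
def fam (F : (Fin n → ZMod 2) → (Fin n → ZMod 2)) (x y : Fin n → ZMod 2) :
    Finset (Finset (Fin n → ZMod 2)) := (sol F x y).image supp

theorem fam_card_three {F : (Fin n → ZMod 2) → (Fin n → ZMod 2)} {x y : Fin n → ZMod 2}
    (hy : y ≠ F x) : ∀ t ∈ fam F x y, t.card = 3 := by
  intro t ht
  obtain ⟨⟨a, b, c⟩, h1, rfl⟩ := mem_image.1 ht
  obtain ⟨h2, h3, h4⟩ := distinct hy h1
  unfold supp
  rw [card_eq_three]
  exact ⟨a, b, c, h2, h3, h4, rfl⟩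

/-- A member of the family with a given point is `{e, b, c}`. -/
theorem fam_point {F : (Fin n → ZMod 2) → (Fin n → ZMod 2)} {x y : Fin n → ZMod 2}
    {t : Finset (Fin n → ZMod 2)} (ht : t ∈ fam F x y) {e : Fin n → ZMod 2} (he : e ∈ t) :
    ∃ b c, (e, b, c) ∈ sol F x y ∧ t = {e, b, c} := by
  obtain ⟨⟨a, b, c⟩, h1, rfl⟩ := mem_image.1 ht
  rw [mem_sol] at h1
  unfold supp at he
  simp only [mem_insert, mem_singleton] at he
  rcases he with rfl | rfl | rfl
  · exact ⟨b, c, mem_sol.2 h1, rfl⟩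
  · refine ⟨a, c, mem_sol.2 ?_, ?_⟩
    · rw [add_comm e a, add_comm (F e) (F a)]
      exact h1
    · unfold supp
      ext z
      simp only [mem_insert, mem_singleton]
      tauto
  · refine ⟨b, a, mem_sol.2 ?_, ?_⟩
    · rw [← h1.1, ← h1.2]
      constructor <;> abel
    · unfold supp
      ext z
      simp only [mem_insert, mem_singleton]
      tauto

theorem fam_disjoint {F : (Fin n → ZMod 2) → (Fin n → ZMod 2)} (hF : Sid F)
    {x y : Fin n → ZMod 2} (hy : y ≠ F x) :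
    ∀ s ∈ fam F x y, ∀ t ∈ fam F x y, s ≠ t → Disjoint s t := by
  intro s hs t ht hst
  rw [disjoint_left]
  intro e hes het
  apply hst
  obtain ⟨b, c, h1, rfl⟩ := fam_point hs hes
  obtain ⟨b', c', h2, rfl⟩ := fam_point ht het
  obtain ⟨-, -, h3⟩ := distinct hy h1
  rw [mem_sol] at h1 h2
  have k1 : b + c + b' = c' := by
    have : b + c + b' + c' = (e + b + c) + (e + b' + c') := by
      have h5 := add_self_eq e
      calc b + c + b' + c' = 0 + b + c + b' + c' := by abel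
        _ = (e + e) + b + c + b' + c' := by rw [h5]
        _ = (e + b + c) + (e + b' + c') := by abel
    rw [h1.1, h2.1, add_self_eq] at this
    exact (add_eq_zero_iff' _ _).1 this
  have k2 : F b + F c + F b' = F c' := by
    have : F b + F c + F b' + F c' = (F e + F b + F c) + (F e + F b' + F c') := by
      have h5 := add_self_eq (F e)
      calc F b + F c + F b' + F c' = 0 + F b + F c + F b' + F c' := by abel
        _ = (F e + F e) + F b + F c + F b' + F c' := by rw [h5]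
        _ = (F e + F b + F c) + (F e + F b' + F c') := by abel
    rw [h1.2, h2.2, add_self_eq] at this
    exact (add_eq_zero_iff' _ _).1 this
  rcases hF _ _ _ _ k1 k2 with h4 | h4 | h4
  · exact absurd h4 h3
  · subst h4
    have : c' = c := by
      rw [← k1, add_comm b c, add_assoc, add_self_eq, add_zero]
    rw [this]
  · subst h4
    have : c' = b := by
      rw [← k1, add_assoc, add_self_eq, add_zero]
    rw [this]
    ext z
    simp only [mem_insert, mem_singleton]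
    tauto

theorem fam_sol {F : (Fin n → ZMod 2) → (Fin n → ZMod 2)}
    {x y : Fin n → ZMod 2} (hy : y ≠ F x) : (sol F x y).card ≤ 6 * (fam F x y).card := by
  refine card_le_mul_card_image (sol F x y) 6 ?_
  intro s hs
  have hs3 := fam_card_three hy s hs
  have h2 : s.offDiag.card = 6 := by
    rw [offDiag_card, hs3]
  rw [← h2]
  refine card_le_card_of_injOn (fun t => (t.1, t.2.1)) ?_ ?_
  · rintro ⟨a, b, c⟩ ht
    obtain ⟨ht1, ht2⟩ := mem_filter.1 ht
    obtain ⟨h3, h4, h5⟩ := distinct hy ht1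
    rw [mem_coe, mem_offDiag, ← ht2]
    unfold supp
    simp [h3]
  · rintro ⟨a, b, c⟩ ht ⟨a', b', c'⟩ ht' h6
    obtain ⟨ht1, -⟩ := mem_filter.1 ht
    obtain ⟨ht1', -⟩ := mem_filter.1 ht'
    rw [mem_sol] at ht1 ht1'
    obtain ⟨h7, h8⟩ := Prod.ext_iff.1 h6
    simp only at h7 h8
    subst h7
    subst h8
    have : c = c' := by
      have h9 := ht1.1.trans ht1'.1.symm
      exact add_left_cancel h9
    rw [this]

/-- DET. Let `F` be a function with `Sid` such that every point `(x, y)` off the graph has at least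
`6 T` representations as the sum of three points of the graph. If `k q² (1 - k⁻³)^T < 1`, there is a
set `A` of at most `q / k` points such that `F` is the only function with `Sid` which agrees with
`F` on `A`. -/
theorem exists_det (k : ℕ) (hk : 0 < k) (T : ℕ)
    (hc : (k : ℝ) * ((2 ^ n) * (2 ^ n)) * (1 - 1 / (k : ℝ) ^ 3) ^ T < 1)
    {F : (Fin n → ZMod 2) → (Fin n → ZMod 2)} (hF : Sid F)
    (hT : ∀ x y : Fin n → ZMod 2, y ≠ F x → 6 * T ≤ (sol F x y).card) :
    ∃ A : Finset (Fin n → ZMod 2), A.card * k ≤ 2 ^ n ∧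
      ∀ G : (Fin n → ZMod 2) → (Fin n → ZMod 2), Sid G → (∀ a ∈ A, G a = F a) → G = F := by
  classical
  have hk1 : (1 : ℝ) ≤ k := by exact_mod_cast hk
  have hk3 : (1 : ℝ) ≤ (k : ℝ) ^ 3 := one_le_pow₀ hk1
  have hr0 : 0 ≤ 1 - 1 / (k : ℝ) ^ 3 := by
    rw [sub_nonneg, div_le_one (by positivity)]
    exact hk3
  have hr1 : 1 - 1 / (k : ℝ) ^ 3 ≤ 1 := by
    have : 0 ≤ 1 / (k : ℝ) ^ 3 := by positivity
    linarith
  -- the bad colourings
  let I : Finset (Fin k × (Fin n → ZMod 2) × (Fin n → ZMod 2)) :=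
    univ.filter fun i => i.2.2 ≠ F i.2.1
  let B : Fin k × (Fin n → ZMod 2) × (Fin n → ZMod 2) → Finset ((Fin n → ZMod 2) → Fin k) :=
    fun i => univ.filter fun h => ∀ t ∈ fam F i.2.1 i.2.2, ¬ ∀ a ∈ t, h a = i.1
  have hB : ∀ i ∈ I, ((B i).card : ℝ)
      ≤ (1 - 1 / (k : ℝ) ^ 3) ^ T * (k : ℝ) ^ (2 ^ n) := by
    intro i hi
    have hi2 : i.2.2 ≠ F i.2.1 := (mem_filter.1 hi).2
    have h1 := card_avoid k hk i.1 (fam F i.2.1 i.2.2) (fam_card_three hi2)
      (fam_disjoint hF hi2)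
    rw [card_vec] at h1
    change ((B i).card : ℝ) = _ at h1
    rw [h1]
    refine mul_le_mul_of_nonneg_right ?_ (by positivity)
    refine pow_le_pow_of_le_one hr0 hr1 ?_
    have h3 := (hT i.2.1 i.2.2 hi2).trans (fam_sol hi2)
    omega
  have hI : (I.card : ℝ) ≤ (k : ℝ) * ((2 ^ n) * (2 ^ n)) := by
    have h1 : I.card ≤ k * (2 ^ n * 2 ^ n) := by
      refine (card_filter_le _ _).trans ?_
      rw [card_univ, Fintype.card_prod, Fintype.card_prod, card_vec, Fintype.card_fin]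
    exact_mod_cast h1
  have hbad : ((I.biUnion B).card : ℝ) < (k : ℝ) ^ (2 ^ n) := by
    have h1 : ((I.biUnion B).card : ℝ) ≤ ∑ i ∈ I, ((B i).card : ℝ) := by
      exact_mod_cast card_biUnion_le
    have h2 : ∑ i ∈ I, ((B i).card : ℝ)
        ≤ I.card • ((1 - 1 / (k : ℝ) ^ 3) ^ T * (k : ℝ) ^ (2 ^ n)) :=
      sum_le_card_nsmul _ _ _ hB
    rw [nsmul_eq_mul] at h2
    have hpos : 0 < (k : ℝ) ^ (2 ^ n) := by positivity
    have h3 : (I.card : ℝ) * ((1 - 1 / (k : ℝ) ^ 3) ^ T * (k : ℝ) ^ (2 ^ n))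
        ≤ ((k : ℝ) * ((2 ^ n) * (2 ^ n)) * (1 - 1 / (k : ℝ) ^ 3) ^ T)
          * (k : ℝ) ^ (2 ^ n) := by
      rw [← mul_assoc]
      refine mul_le_mul_of_nonneg_right ?_ hpos.le
      exact mul_le_mul_of_nonneg_right hI (pow_nonneg hr0 _)
    have h4 : ((k : ℝ) * ((2 ^ n) * (2 ^ n)) * (1 - 1 / (k : ℝ) ^ 3) ^ T)
          * (k : ℝ) ^ (2 ^ n) < 1 * (k : ℝ) ^ (2 ^ n) :=
      mul_lt_mul_of_pos_right hc hpos
    linarith
  -- a good colouring
  obtain ⟨h, hh⟩ : ∃ h : (Fin n → ZMod 2) → Fin k, h ∉ I.biUnion B := by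
    by_contra hcon
    push Not at hcon
    have h1 : I.biUnion B = univ := eq_univ_of_forall hcon
    rw [h1, card_univ, Fintype.card_fun, Fintype.card_fin, card_vec] at hbad
    push_cast at hbad
    exact lt_irrefl _ hbad
  -- a small colour class
  obtain ⟨j, hj⟩ : ∃ j : Fin k, (univ.filter fun a => h a = j).card * k ≤ 2 ^ n := by
    by_contra hcon
    push Not at hcon
    have h1 : ∑ j : Fin k, (univ.filter fun a => h a = j).card = 2 ^ n := by
      rw [← card_vec (n := n), ← card_univ]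
      exact (card_eq_sum_card_fiberwise fun a _ => mem_univ (h a)).symm
    have h2 : ∑ _j : Fin k, 2 ^ n < ∑ j : Fin k, (univ.filter fun a => h a = j).card * k :=
      sum_lt_sum_of_nonempty ⟨⟨0, hk⟩, mem_univ _⟩ fun j _ => hcon j
    rw [← sum_mul, h1, sum_const, card_univ, Fintype.card_fin, smul_eq_mul, mul_comm] at h2
    exact lt_irrefl _ h2
  refine ⟨univ.filter fun a => h a = j, hj, fun G hG hGF => ?_⟩
  funext x
  by_contra hne
  have h1 : h ∉ B (j, x, G x) := by
    intro h2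
    exact hh (mem_biUnion.2 ⟨(j, x, G x), mem_filter.2 ⟨mem_univ _, hne⟩, h2⟩)
  have h2 : ¬ ∀ t ∈ fam F x (G x), ¬ ∀ a ∈ t, h a = j := fun h3 =>
    h1 (mem_filter.2 ⟨mem_univ _, h3⟩)
  push Not at h2
  obtain ⟨t, ht, ht2⟩ := h2
  obtain ⟨⟨a, b, c⟩, h3, rfl⟩ := mem_image.1 ht
  obtain ⟨d1, d2, d3⟩ := distinct hne h3
  rw [mem_sol] at h3
  have ha : G a = F a := hGF a (mem_filter.2 ⟨mem_univ _, ht2 a (by unfold supp; simp)⟩)
  have hb : G b = F b := hGF b (mem_filter.2 ⟨mem_univ _, ht2 b (by unfold supp; simp)⟩)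
  have hc' : G c = F c := hGF c (mem_filter.2 ⟨mem_univ _, ht2 c (by unfold supp; simp)⟩)
  have h4 : G a + G b + G c = G x := by rw [ha, hb, hc', h3.2]
  rcases hG _ _ _ _ h3.1 h4 with h5 | h5 | h5
  · exact d1 h5
  · exact d2 h5
  · exact d3 h5

end Pool.Agent.ABF
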