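import Pool.Agent.ABF.Count

set_option autoImplicit false

/-!
# The number of plateaued APN functions (MP_d7c7d1_co): the main theorems
-/

namespace Pool.Agent.ABF

open Finset

variable {n : ℕ}

/-- `X = n^(1/3) 2^(2n/3)`. -/
theorem X_cube (n : ℕ) :
    ((n : ℝ) ^ (1 / 3 : ℝ) * (2 : ℝ) ^ (2 * (n : ℝ) / 3)) ^ 3 = n * (2 ^ n * 2 ^ n) := by
  rw [mul_pow, ← Real.rpow_natCast ((n : ℝ) ^ (1 / 3 : ℝ)), ← Real.rpow_mul (by positivity),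
    ← Real.rpow_natCast ((2 : ℝ) ^ (2 * (n : ℝ) / 3)), ← Real.rpow_mul (by positivity)]
  have h1 : (1 / 3 : ℝ) * ((3 : ℕ) : ℝ) = 1 := by norm_num
  have h2 : 2 * (n : ℝ) / 3 * ((3 : ℕ) : ℝ) = ((n + n : ℕ) : ℝ) := by
    push_cast
    ring
  rw [h1, h2, Real.rpow_one, Real.rpow_natCast, pow_add]

/-- `Y = n^(1/3) 2^(5n/6)`. -/
theorem Y_cube (m : ℕ) :
    (((m + m : ℕ) : ℝ) ^ (1 / 3 : ℝ) * (2 : ℝ) ^ (5 * ((m + m : ℕ) : ℝ) / 6)) ^ 3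
      = ((m + m : ℕ) : ℝ) * 2 ^ (5 * m) := by
  rw [mul_pow, ← Real.rpow_natCast (((m + m : ℕ) : ℝ) ^ (1 / 3 : ℝ)),
    ← Real.rpow_mul (by positivity),
    ← Real.rpow_natCast ((2 : ℝ) ^ (5 * ((m + m : ℕ) : ℝ) / 6)), ← Real.rpow_mul (by positivity)]
  have h1 : (1 / 3 : ℝ) * ((3 : ℕ) : ℝ) = 1 := by norm_num
  have h2 : 5 * ((m + m : ℕ) : ℝ) / 6 * ((3 : ℕ) : ℝ) = ((5 * m : ℕ) : ℝ) := by
    push_cast
    ring
  rw [h1, h2, Real.rpow_one, Real.rpow_natCast]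

/-- Odd dimension. -/
theorem det_odd (n : ℕ) (hn : 12 ≤ n) (hodd : Odd n) {F : (Fin n → ZMod 2) → (Fin n → ZMod 2)}
    (hF : Sid F) (hP : IsPlateaued F) :
    ∃ A : Finset (Fin n → ZMod 2),
      (A.card : ℝ) ≤ 2.88 * ((n : ℝ) ^ (1 / 3 : ℝ) * (2 : ℝ) ^ (2 * (n : ℝ) / 3)) ∧
      ∀ G : (Fin n → ZMod 2) → (Fin n → ZMod 2), Sid G → (∀ a ∈ A, G a = F a) → G = F := by
  obtain ⟨hb1, hb2⟩ := big n hn
  have hn0 : (12 : ℝ) ≤ n := by exact_mod_cast hn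
  obtain ⟨k, hk, hk1, hk2⟩ := exists_k (2 ^ n) (10 * n) (by positivity) (by linarith)
  have hk3 : (k : ℝ) ^ 3 ≤ 2 ^ n := by
    have : (k : ℝ) ^ 3 * 1 ≤ (k : ℝ) ^ 3 * (10 * n) :=
      mul_le_mul_of_nonneg_left (by linarith) (by positivity)
    linarith
  obtain ⟨T, hT⟩ : ∃ T : ℕ, T = (2 ^ n - 2) / 6 := ⟨_, rfl⟩
  have hT2 : 2 ^ n ≤ 6 * T + 7 := by
    rw [hT]
    generalize 2 ^ n = q
    omega
  have hT3 : (2 : ℝ) ^ n ≤ 6 * T + 7 := by exact_mod_cast hT2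
  have hT4 : 1.66 * (n : ℝ) * k ^ 3 ≤ T := by nlinarith
  obtain ⟨A, hA, hA2⟩ := exists_det k hk T (cond n k T (by omega) hk hk3 hT4) hF (by
    intro x y hy
    have h1 := sol_odd hF hP hodd hy
    have h2 : 6 * T ≤ 2 ^ n - 2 := by
      rw [hT]
      exact Nat.mul_div_le _ _
    omega)
  refine ⟨A, ?_, hA2⟩
  have hAr : (A.card : ℝ) * k ≤ 2 ^ n := by exact_mod_cast hA
  have hq : (0 : ℝ) < 2 ^ n := by positivity
  have h1 : ((A.card : ℝ) * k) ^ 3 ≤ (2 ^ n) ^ 3 := pow_le_pow_left₀ (by positivity) hAr 3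
  have h2 : (A.card : ℝ) ^ 3 * (27 * 2 ^ n) ≤ (640 * n * (2 ^ n * 2 ^ n)) * 2 ^ n := by
    calc (A.card : ℝ) ^ 3 * (27 * 2 ^ n) ≤ (A.card : ℝ) ^ 3 * (64 * k ^ 3 * (10 * n)) :=
          mul_le_mul_of_nonneg_left hk2 (by positivity)
      _ = ((A.card : ℝ) * k) ^ 3 * (640 * n) := by ring
      _ ≤ (2 ^ n) ^ 3 * (640 * n) := mul_le_mul_of_nonneg_right h1 (by positivity)
      _ = (640 * n * (2 ^ n * 2 ^ n)) * 2 ^ n := by ring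
  have h3 : (A.card : ℝ) ^ 3 * 27 ≤ 640 * n * (2 ^ n * 2 ^ n) := by
    refine le_of_mul_le_mul_right ?_ hq
    calc (A.card : ℝ) ^ 3 * 27 * 2 ^ n = (A.card : ℝ) ^ 3 * (27 * 2 ^ n) := by ring
      _ ≤ _ := h2
  refine le_of_pow_le_pow_left₀ (n := 3) (by norm_num) (by positivity) ?_
  rw [mul_pow, X_cube]
  have h4 : (0 : ℝ) ≤ n * (2 ^ n * 2 ^ n) := by positivity
  norm_num
  linarith

/-- Even dimension. -/
theorem det_even (m : ℕ) (hm : 12 ≤ m) {F : (Fin (m + m) → ZMod 2) → (Fin (m + m) → ZMod 2)}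
    (hF : Sid F) (hP : IsPlateaued F) :
    ∃ A : Finset (Fin (m + m) → ZMod 2),
      (A.card : ℝ) ≤ 2.12 * (((m + m : ℕ) : ℝ) ^ (1 / 3 : ℝ)
        * (2 : ℝ) ^ (5 * ((m + m : ℕ) : ℝ) / 6)) ∧
      ∀ G : (Fin (m + m) → ZMod 2) → (Fin (m + m) → ZMod 2), Sid G →
        (∀ a ∈ A, G a = F a) → G = F := by
  obtain ⟨hb1, hb2⟩ := big m hm
  have hm0 : (12 : ℝ) ≤ m := by exact_mod_cast hm
  obtain ⟨k, hk, hk1, hk2⟩ := exists_k (2 ^ m) (4 * ((m + m : ℕ) : ℝ))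
    (by push_cast; positivity) (by push_cast; linarith)
  have hk3 : (k : ℝ) ^ 3 ≤ 2 ^ m := by
    have : (k : ℝ) ^ 3 * 1 ≤ (k : ℝ) ^ 3 * (4 * ((m + m : ℕ) : ℝ)) :=
      mul_le_mul_of_nonneg_left (by push_cast; linarith) (by positivity)
    linarith
  have hk4 : (k : ℝ) ^ 3 ≤ 2 ^ (m + m) :=
    hk3.trans (pow_le_pow_right₀ (by norm_num) (by omega))
  obtain ⟨T, hT⟩ : ∃ T : ℕ, T = 2 ^ (m - 1) - 1 := ⟨_, rfl⟩
  have hT3 : (2 : ℝ) ^ m ≤ 2 * T + 2 := by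
    have h1 : 2 ^ m = 2 * 2 ^ (m - 1) := by
      rw [← pow_succ']
      congr 1
      omega
    have h2 : 1 ≤ 2 ^ (m - 1) := Nat.one_le_two_pow
    have h3 : 2 ^ m ≤ 2 * T + 2 := by omega
    exact_mod_cast h3
  have hT4 : 1.66 * ((m + m : ℕ) : ℝ) * k ^ 3 ≤ T := by nlinarith
  obtain ⟨A, hA, hA2⟩ := exists_det k hk T (cond (m + m) k T (by omega) hk hk4 hT4) hF (by
    intro x y hy
    rw [hT]
    exact sol_even (by omega) hF hP hy)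
  refine ⟨A, ?_, hA2⟩
  have hAr : (A.card : ℝ) * k ≤ 2 ^ (m + m) := by exact_mod_cast hA
  obtain ⟨N, hN⟩ : ∃ N : ℝ, N = ((m + m : ℕ) : ℝ) := ⟨_, rfl⟩
  have hN0 : 0 ≤ N := by rw [hN]; positivity
  have hq : (0 : ℝ) < 2 ^ m := by positivity
  have h1 : ((A.card : ℝ) * k) ^ 3 ≤ (2 ^ (m + m)) ^ 3 := pow_le_pow_left₀ (by positivity) hAr 3
  rw [← hN] at hk2
  have h2 : (A.card : ℝ) ^ 3 * (27 * 2 ^ m) ≤ (256 * N * 2 ^ (5 * m)) * 2 ^ m := by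
    calc (A.card : ℝ) ^ 3 * (27 * 2 ^ m) ≤ (A.card : ℝ) ^ 3 * (64 * k ^ 3 * (4 * N)) :=
          mul_le_mul_of_nonneg_left hk2 (by positivity)
      _ = ((A.card : ℝ) * k) ^ 3 * (256 * N) := by ring
      _ ≤ (2 ^ (m + m)) ^ 3 * (256 * N) := mul_le_mul_of_nonneg_right h1 (by positivity)
      _ = (256 * N * 2 ^ (5 * m)) * 2 ^ m := by ring
  have h3 : (A.card : ℝ) ^ 3 * 27 ≤ 256 * N * 2 ^ (5 * m) := by
    refine le_of_mul_le_mul_right ?_ hq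
    calc (A.card : ℝ) ^ 3 * 27 * 2 ^ m = (A.card : ℝ) ^ 3 * (27 * 2 ^ m) := by ring
      _ ≤ _ := h2
  refine le_of_pow_le_pow_left₀ (n := 3) (by norm_num) (by positivity) ?_
  rw [mul_pow, Y_cube, ← hN]
  have h4 : (0 : ℝ) ≤ N * 2 ^ (5 * m) := by positivity
  norm_num
  linarith

theorem small_odd (n : ℕ) (hn : 0 < n) (hn2 : n < 12) :
    (2 : ℝ) ^ n ≤ 6 * ((n : ℝ) ^ (1 / 3 : ℝ) * (2 : ℝ) ^ (2 * (n : ℝ) / 3)) := by
  refine le_of_pow_le_pow_left₀ (n := 3) (by norm_num) (by positivity) ?_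
  rw [mul_pow, X_cube]
  have h1 : (2 : ℝ) ^ n ≤ 216 * n := by
    interval_cases n <;> norm_num
  have h2 : (0 : ℝ) ≤ 2 ^ n * 2 ^ n := by positivity
  calc ((2 : ℝ) ^ n) ^ 3 = 2 ^ n * (2 ^ n * 2 ^ n) := by ring
    _ ≤ 216 * n * (2 ^ n * 2 ^ n) := mul_le_mul_of_nonneg_right h1 h2
    _ = 6 ^ 3 * (n * (2 ^ n * 2 ^ n)) := by ring

theorem small_even (m : ℕ) (hm : 0 < m) (hm2 : m < 12) :
    (2 : ℝ) ^ (m + m) ≤ 6 * (((m + m : ℕ) : ℝ) ^ (1 / 3 : ℝ)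
      * (2 : ℝ) ^ (5 * ((m + m : ℕ) : ℝ) / 6)) := by
  refine le_of_pow_le_pow_left₀ (n := 3) (by norm_num) (by positivity) ?_
  rw [mul_pow, Y_cube]
  have h1 : (2 : ℝ) ^ m ≤ 216 * ((m + m : ℕ) : ℝ) := by
    interval_cases m <;> norm_num
  have h2 : (0 : ℝ) ≤ 2 ^ (5 * m) := by positivity
  calc ((2 : ℝ) ^ (m + m)) ^ 3 = 2 ^ m * 2 ^ (5 * m) := by ring
    _ ≤ 216 * ((m + m : ℕ) : ℝ) * 2 ^ (5 * m) := mul_le_mul_of_nonneg_right h1 h2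
    _ = 6 ^ 3 * (((m + m : ℕ) : ℝ) * 2 ^ (5 * m)) := by ring

/-- DETERMINATION, odd dimension. -/
theorem main_det_odd (n : ℕ) (hodd : Odd n) {F : (Fin n → ZMod 2) → (Fin n → ZMod 2)}
    (hF : IsAPN F) (hP : IsPlateaued F) :
    ∃ A : Finset (Fin n → ZMod 2),
      (A.card : ℝ) ≤ 6 * (n : ℝ) ^ (1 / 3 : ℝ) * (2 : ℝ) ^ (2 * (n : ℝ) / 3) ∧
      ∀ G : (Fin n → ZMod 2) → (Fin n → ZMod 2), IsAPN G → (∀ a ∈ A, G a = F a) → G = F := by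
  rcases le_or_gt 12 n with h | h
  · obtain ⟨A, hA, hA2⟩ := det_odd n h hodd hF.sid hP
    refine ⟨A, hA.trans ?_, fun G hG => hA2 G hG.sid⟩
    rw [mul_assoc]
    exact mul_le_mul_of_nonneg_right (by norm_num) (by positivity)
  · refine ⟨univ, ?_, fun G _ hGF => funext fun x => hGF x (mem_univ x)⟩
    rw [card_univ, card_vec, mul_assoc]
    push_cast
    exact small_odd n hodd.pos h

/-- DETERMINATION, even dimension. -/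
theorem main_det_even (m : ℕ) (hm : 0 < m)
    {F : (Fin (m + m) → ZMod 2) → (Fin (m + m) → ZMod 2)} (hF : IsAPN F) (hP : IsPlateaued F) :
    ∃ A : Finset (Fin (m + m) → ZMod 2),
      (A.card : ℝ) ≤ 6 * ((m + m : ℕ) : ℝ) ^ (1 / 3 : ℝ)
        * (2 : ℝ) ^ (5 * ((m + m : ℕ) : ℝ) / 6) ∧
      ∀ G : (Fin (m + m) → ZMod 2) → (Fin (m + m) → ZMod 2), IsAPN G →
        (∀ a ∈ A, G a = F a) → G = F := by
  rcases le_or_gt 12 m with h | h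
  · obtain ⟨A, hA, hA2⟩ := det_even m h hF.sid hP
    refine ⟨A, hA.trans ?_, fun G hG => hA2 G hG.sid⟩
    rw [mul_assoc]
    exact mul_le_mul_of_nonneg_right (by norm_num) (by positivity)
  · refine ⟨univ, ?_, fun G _ hGF => funext fun x => hGF x (mem_univ x)⟩
    rw [card_univ, card_vec, mul_assoc]
    have h1 := small_even m hm h
    exact_mod_cast h1

/-- The exponent. -/
theorem count_aux (n : ℕ) (hn : 12 ≤ n) (X c : ℝ) (hc : 0 ≤ c) (hc2 : c ≤ 2.88) (hX : 0 ≤ X)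
    (P : ((Fin n → ZMod 2) → (Fin n → ZMod 2)) → Prop) (hP : ∀ F, P F → Sid F)
    (hdet : ∀ F : (Fin n → ZMod 2) → (Fin n → ZMod 2), P F →
      ∃ A : Finset (Fin n → ZMod 2), (A.card : ℝ) ≤ c * X ∧
        ∀ G : (Fin n → ZMod 2) → (Fin n → ZMod 2), Sid G → (∀ a ∈ A, G a = F a) → G = F) :
    (Nat.card {F : (Fin n → ZMod 2) → (Fin n → ZMod 2) // P F} : ℝ)
      ≤ (2 : ℝ) ^ (6 * (n : ℝ) * X) := by
  have h1 := card_le P hP ⌊c * X⌋₊ (by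
    intro F hF
    obtain ⟨A, hA, hA2⟩ := hdet F hF
    exact ⟨A, Nat.le_floor hA, hA2⟩)
  have h2 : (Nat.card {F : (Fin n → ZMod 2) → (Fin n → ZMod 2) // P F} : ℝ)
      ≤ (2 : ℝ) ^ ((2 * n + 1) * ⌊c * X⌋₊) := by exact_mod_cast h1
  refine h2.trans ?_
  rw [← Real.rpow_natCast]
  refine Real.rpow_le_rpow_of_exponent_le (by norm_num) ?_
  push_cast
  have h3 : (⌊c * X⌋₊ : ℝ) ≤ 2.88 * X :=
    (Nat.floor_le (by positivity)).trans (mul_le_mul_of_nonneg_right hc2 hX)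
  have h4 : (2 * (n : ℝ) + 1) ≤ 25 / 12 * n := by
    have : (12 : ℝ) ≤ n := by exact_mod_cast hn
    linarith
  calc (2 * (n : ℝ) + 1) * (⌊c * X⌋₊ : ℝ) ≤ (25 / 12 * n) * (2.88 * X) :=
        mul_le_mul h4 h3 (by positivity) (by positivity)
    _ = 6 * n * X := by ring

theorem count_triv (n : ℕ) (X : ℝ) (hX : (2 : ℝ) ^ n ≤ 6 * X)
    (P : ((Fin n → ZMod 2) → (Fin n → ZMod 2)) → Prop) :
    (Nat.card {F : (Fin n → ZMod 2) → (Fin n → ZMod 2) // P F} : ℝ)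
      ≤ (2 : ℝ) ^ (6 * (n : ℝ) * X) := by
  have h1 : (Nat.card {F : (Fin n → ZMod 2) → (Fin n → ZMod 2) // P F} : ℝ)
      ≤ (2 : ℝ) ^ (n * 2 ^ n) := by exact_mod_cast card_trivial (n := n) P
  refine h1.trans ?_
  rw [← Real.rpow_natCast]
  refine Real.rpow_le_rpow_of_exponent_le (by norm_num) ?_
  push_cast
  calc (n : ℝ) * 2 ^ n ≤ n * (6 * X) := mul_le_mul_of_nonneg_left hX (by positivity)
    _ = 6 * n * X := by ring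

theorem exp_eq (n : ℕ) (hn : 0 < n) (t : ℝ) :
    6 * (n : ℝ) ^ (4 / 3 : ℝ) * (2 : ℝ) ^ t = 6 * n * ((n : ℝ) ^ (1 / 3 : ℝ) * (2 : ℝ) ^ t) := by
  have hn0 : (0 : ℝ) < n := by exact_mod_cast hn
  have h1 : (n : ℝ) ^ (4 / 3 : ℝ) = n * (n : ℝ) ^ (1 / 3 : ℝ) := by
    rw [show (4 / 3 : ℝ) = 1 + 1 / 3 by norm_num, Real.rpow_add hn0, Real.rpow_one]
  rw [h1]
  ring

/-- COUNT, odd dimension. -/
theorem main_count_odd (n : ℕ) (hodd : Odd n) :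
    (Nat.card {F : (Fin n → ZMod 2) → (Fin n → ZMod 2) // IsAPN F ∧ IsPlateaued F} : ℝ)
      ≤ 2 ^ (6 * (n : ℝ) ^ (4 / 3 : ℝ) * (2 : ℝ) ^ (2 * (n : ℝ) / 3)) := by
  rw [exp_eq n hodd.pos]
  rcases le_or_gt 12 n with h | h
  · exact count_aux n h _ 2.88 (by norm_num) le_rfl (by positivity) _ (fun F hF => hF.1.sid)
      fun F hF => det_odd n h hodd hF.1.sid hF.2
  · exact count_triv n _ (small_odd n hodd.pos h) _

/-- COUNT, even dimension. -/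
theorem main_count_even (m : ℕ) (hm : 0 < m) :
    (Nat.card {F : (Fin (m + m) → ZMod 2) → (Fin (m + m) → ZMod 2) //
      IsAPN F ∧ IsPlateaued F} : ℝ)
      ≤ 2 ^ (6 * ((m + m : ℕ) : ℝ) ^ (4 / 3 : ℝ) * (2 : ℝ) ^ (5 * ((m + m : ℕ) : ℝ) / 6)) := by
  rw [exp_eq (m + m) (by omega)]
  rcases le_or_gt 12 m with h | h
  · exact count_aux (m + m) (by omega) _ 2.12 (by norm_num) (by norm_num) (by positivity) _
      (fun F hF => hF.1.sid) fun F hF => det_even m h hF.1.sid hF.2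
  · exact count_triv (m + m) _ (small_even m hm h) _

end Pool.Agent.ABF
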