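import Pool.Agent.ABF.Sub

set_option autoImplicit false

/-!
# Plateaued functions (MP_d7c7d1_co)
-/

namespace Pool.Agent.ABF

open Finset

variable {n : ℕ}

/-- `F` is plateaued: for `v ≠ 0` the Walsh coefficients at `(u, v)` have at most one nonzero
absolute value. -/
def IsPlateaued {n : ℕ} (F : (Fin n → ZMod 2) → (Fin n → ZMod 2)) : Prop :=
  ∀ v : Fin n → ZMod 2, v ≠ 0 → ∃ L : ℤ, ∀ u, walsh F u v = 0 ∨ walsh F u v ^ 2 = L

/-- Inversion for one component. -/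
theorem slice (F : (Fin n → ZMod 2) → (Fin n → ZMod 2)) (v x y : Fin n → ZMod 2) :
    ∑ u, walsh F u v * sgn (u ⬝ᵥ x + v ⬝ᵥ y) = 2 ^ n * sgn (v ⬝ᵥ (F x + y)) := by
  have h1 : ∑ u : Fin n → ZMod 2, walsh F u v * sgn (u ⬝ᵥ x + v ⬝ᵥ y)
      = ∑ a : Fin n → ZMod 2, (∑ u : Fin n → ZMod 2, sgn (u ⬝ᵥ (a + x))) * sgn (v ⬝ᵥ (F a + y)) := by
    simp_rw [walsh_one, sgn_add, sum_mul]
    exact sum_comm
  rw [h1, sum_eq_single x]
  · rw [sum_sgn, if_pos (add_self_eq x)]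
  · intro a _ ha
    rw [sum_sgn, if_neg fun h => ha ((add_eq_zero_iff' a x).1 h), zero_mul]
  · simp

theorem parseval (F : (Fin n → ZMod 2) → (Fin n → ZMod 2)) (v : Fin n → ZMod 2) :
    ∑ u, walsh F u v ^ 2 = 2 ^ n * 2 ^ n := by
  have h1 : ∀ u, walsh F u v ^ 2 = ∑ x, walsh F u v * sgn (u ⬝ᵥ x + v ⬝ᵥ F x) := by
    intro u
    rw [← mul_sum, pow_two]
    rfl
  simp_rw [h1]
  rw [sum_comm]
  simp_rw [slice, add_self_eq, dotProduct_zero, sgn_zero]
  rw [sum_const, card_univ, nsmul_eq_mul]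
  simp [ZMod.card]

/-- The square of the amplitude of the component `v`. -/
def amp (F : (Fin n → ZMod 2) → (Fin n → ZMod 2)) (v : Fin n → ZMod 2) (L : ℤ) : Prop :=
  ∀ u, walsh F u v = 0 ∨ walsh F u v ^ 2 = L

theorem amp_count {F : (Fin n → ZMod 2) → (Fin n → ZMod 2)} {v : Fin n → ZMod 2} {L : ℤ}
    (hL : amp F v L) :
    ((univ.filter fun u => walsh F u v ≠ 0).card : ℤ) * L = 2 ^ n * 2 ^ n := by
  rw [← parseval F v, card_filter]
  push_cast
  rw [sum_mul]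
  refine sum_congr rfl fun u _ => ?_
  by_cases h : walsh F u v = 0
  · simp [h]
  · rcases hL u with h1 | h1
    · exact absurd h1 h
    · simp [h, h1]

/-- The amplitude is a power of two. -/
theorem amp_pow {F : (Fin n → ZMod 2) → (Fin n → ZMod 2)} {v : Fin n → ZMod 2} {L : ℤ}
    (hL : amp F v L) :
    ∃ j : ℕ, L = 2 ^ (2 * j) ∧ n ≤ 2 * j := by
  classical
  have h1 := amp_count hL
  obtain ⟨u, hu⟩ : ∃ u, walsh F u v ≠ 0 := by
    by_contra hcon
    push Not at hcon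
    rw [filter_false_of_mem (fun u _ => by simpa using hcon u)] at h1
    simp at h1
  have h2 : walsh F u v ^ 2 = L := by
    rcases hL u with h | h
    · exact absurd h hu
    · exact h
  have h3 : L = ((walsh F u v).natAbs : ℤ) ^ 2 := by
    rw [← h2, Int.natCast_natAbs, sq_abs]
  rw [h3] at h1
  have h4 : (univ.filter fun u => walsh F u v ≠ 0).card * (walsh F u v).natAbs ^ 2
      = 2 ^ (n + n) := by
    rw [pow_add]
    exact_mod_cast h1
  have h5 : (walsh F u v).natAbs ∣ 2 ^ (n + n) := by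
    rw [← h4, pow_two]
    exact Dvd.dvd.mul_left (Dvd.intro _ rfl) _
  obtain ⟨j, -, hj⟩ := (Nat.dvd_prime_pow Nat.prime_two).1 h5
  refine ⟨j, ?_, ?_⟩
  · rw [h3, hj]
    push_cast
    rw [← pow_mul, mul_comm]
  · rw [hj, ← pow_mul] at h4
    have h6 : (univ.filter fun u => walsh F u v ≠ 0).card ≤ 2 ^ n := by
      refine (card_filter_le _ _).trans ?_
      rw [card_univ]
      simp [ZMod.card]
    by_contra hcon
    push Not at hcon
    have h7 : (2 : ℕ) ^ (j * 2) < 2 ^ n := Nat.pow_lt_pow_right (by norm_num) (by omega)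
    have h8 : (univ.filter fun u => walsh F u v ≠ 0).card * 2 ^ (j * 2) < 2 ^ n * 2 ^ n :=
      Nat.mul_lt_mul_of_le_of_lt h6 h7 (by positivity)
    rw [h4, pow_add] at h8
    exact lt_irrefl _ h8

theorem amp_odd {F : (Fin n → ZMod 2) → (Fin n → ZMod 2)} {v : Fin n → ZMod 2} {L : ℤ}
    (hL : amp F v L) (hn : Odd n) : 2 * 2 ^ n ≤ L := by
  obtain ⟨j, rfl, hj⟩ := amp_pow hL
  obtain ⟨m, rfl⟩ := hn
  calc (2 : ℤ) * 2 ^ (2 * m + 1) = 2 ^ (2 * m + 1 + 1) := by ring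
    _ ≤ 2 ^ (2 * j) := pow_le_pow_right₀ (by norm_num) (by omega)

theorem amp_even {F : (Fin n → ZMod 2) → (Fin n → ZMod 2)} {v : Fin n → ZMod 2} {L : ℤ}
    (hL : amp F v L) (hn : Even n) : L = 2 ^ n ∨ 4 * 2 ^ n ≤ L := by
  obtain ⟨j, rfl, hj⟩ := amp_pow hL
  obtain ⟨m, rfl⟩ := hn
  rcases eq_or_lt_of_le hj with h | h
  · left
    rw [h]
  · right
    calc (4 : ℤ) * 2 ^ (m + m) = 2 ^ (m + m + 2) := by ring
      _ ≤ 2 ^ (2 * j) := pow_le_pow_right₀ (by norm_num) (by omega)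

theorem amp_bent {m : ℕ} {F : (Fin (m + m) → ZMod 2) → (Fin (m + m) → ZMod 2)}
    {v : Fin (m + m) → ZMod 2} (hL : amp F v (2 ^ (m + m))) (u : Fin (m + m) → ZMod 2) :
    ((2 : ℤ) ^ (m + 1)) ∣ walsh F u v - 2 ^ m := by
  classical
  have h1 := amp_count hL
  have h2 : ((univ.filter fun u => walsh F u v ≠ 0).card : ℤ) = 2 ^ (m + m) :=
    mul_right_cancel₀ (by positivity) h1
  have h3 : (univ.filter fun u => walsh F u v ≠ 0) = univ := by
    refine (card_eq_iff_eq_univ _).1 ?_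
    have h4 : Fintype.card (Fin (m + m) → ZMod 2) = 2 ^ (m + m) := by simp [ZMod.card]
    rw [h4]
    exact_mod_cast h2
  have h4 : walsh F u v ≠ 0 := by
    have : u ∈ univ.filter fun u => walsh F u v ≠ 0 := by
      rw [h3]
      exact mem_univ u
    exact (mem_filter.1 this).2
  have h5 : walsh F u v ^ 2 = (2 ^ m) ^ 2 := by
    rcases hL u with h | h
    · exact absurd h h4
    · rw [h]
      ring
  rcases sq_eq_sq_iff_eq_or_eq_neg.1 h5 with h | h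
  · rw [h, sub_self]
    exact dvd_zero _
  · rw [h]
    exact ⟨-1, by ring⟩

/-- BOSE. At least `2^(m-1) - 1` nonzero components in a hyperplane are not bent (dimension
`2m`). -/
theorem nonbent {m : ℕ} (hm : 2 ≤ m) (F : (Fin (m + m) → ZMod 2) → (Fin (m + m) → ZMod 2))
    {z : Fin (m + m) → ZMod 2} (hz : z ≠ 0) (B : Finset (Fin (m + m) → ZMod 2))
    (hB0 : (0 : Fin (m + m) → ZMod 2) ∉ B)
    (hB : ∀ v ∈ hyp z, v ≠ 0 → v ∉ B → amp F v (2 ^ (m + m))) :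
    2 ^ (m - 1) ≤ B.card + 1 := by
  classical
  by_contra hcon
  push Not at hcon
  have hH := card_hyp hz
  have hH2 : (hyp z).card = 2 ^ m * 2 ^ (m - 1) := by
    have h1 : 2 * (2 ^ m * 2 ^ (m - 1)) = 2 ^ (m + m) := by
      rw [← pow_add, ← pow_succ']
      congr 1
      omega
    omega
  obtain ⟨K, hK, hKH, hKB, hKc⟩ := greedy (isSub_hyp z) hB0 m (by
    rw [hH2]
    exact Nat.mul_lt_mul_of_pos_left hcon (by positivity)) (m + 1) le_rfl
  -- the sum over the subspace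
  have h1 : ((2 : ℤ) ^ (m + 1)) ∣ ∑ v ∈ K, walsh F 0 v := by
    have h2 : ∑ v ∈ K, walsh F 0 v = ∑ x, ∑ v ∈ K, sgn (v ⬝ᵥ F x) := by
      unfold walsh
      simp only [zero_dotProduct, zero_add]
      exact sum_comm
    rw [h2]
    refine dvd_sum fun x _ => ?_
    have h3 := sum_sub hK (F x)
    rw [hKc] at h3
    exact_mod_cast h3
  have h2 : ((2 : ℤ) ^ (m + 1)) ∣ ∑ v ∈ K.erase 0, (walsh F 0 v - 2 ^ m) := by
    refine dvd_sum fun v hv => ?_
    obtain ⟨hv0, hvK⟩ := mem_erase.1 hv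
    exact amp_bent (hB v (hKH hvK) hv0 fun h => (disjoint_left.1 hKB) hvK h) 0
  have h3 : ∑ v ∈ K, walsh F 0 v
      = 2 ^ (m + m) + (∑ v ∈ K.erase 0, (walsh F 0 v - 2 ^ m) + (2 ^ (m + 1) - 1) * 2 ^ m) := by
    rw [← add_sum_erase K _ hK.1, walsh_zero, if_pos rfl, sum_sub_distrib, sum_const,
      card_erase_of_mem hK.1, hKc, nsmul_eq_mul, Nat.cast_sub Nat.one_le_two_pow]
    push_cast
    ring
  rw [h3] at h1
  have h4 : ((2 : ℤ) ^ (m + 1)) ∣ 2 ^ (m + m) := pow_dvd_pow 2 (by omega)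
  have h5 := (dvd_add_right h2).1 ((dvd_add_right h4).1 h1)
  have h6 : ((2 : ℤ) ^ (m + 1)) ∣ 2 ^ m := by
    have h7 : ((2 : ℤ) ^ (m + 1)) ∣ 2 ^ (m + 1) * 2 ^ m := Dvd.intro _ rfl
    have h8 : (2 : ℤ) ^ m = 2 ^ (m + 1) * 2 ^ m - (2 ^ (m + 1) - 1) * 2 ^ m := by ring
    rw [h8]
    exact dvd_sub h7 h5
  have h7 := Int.le_of_dvd (by positivity) h6
  have h8 : (2 : ℤ) ^ (m + 1) = 2 * 2 ^ m := by ring
  have h9 : (0 : ℤ) < 2 ^ m := by positivity
  omega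

end Pool.Agent.ABF
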