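import Pool.Agent.ABF.Walsh

set_option autoImplicit false

/-!
# Subspaces which avoid a small set (MP_d7c7d1_co)
-/

namespace Pool.Agent.ABF

open Finset

variable {n : ℕ}

/-- A finite set of vectors which is a subspace. -/
def IsSub (K : Finset (Fin n → ZMod 2)) : Prop :=
  0 ∈ K ∧ ∀ a ∈ K, ∀ b ∈ K, a + b ∈ K

theorem isSub_zero : IsSub ({0} : Finset (Fin n → ZMod 2)) := by
  refine ⟨mem_singleton_self _, ?_⟩
  intro a ha b hb
  rw [mem_singleton] at ha hb ⊢
  rw [ha, hb, add_zero]

/-- Character sums over a subspace. -/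
theorem sum_sub {K : Finset (Fin n → ZMod 2)} (hK : IsSub K) (w : Fin n → ZMod 2) :
    ((K.card : ℕ) : ℤ) ∣ ∑ v ∈ K, sgn (v ⬝ᵥ w) := by
  by_cases h : ∀ v ∈ K, v ⬝ᵥ w = 0
  · have h1 : ∑ v ∈ K, sgn (v ⬝ᵥ w) = K.card := by
      rw [sum_congr rfl fun v hv => by rw [h v hv, sgn_zero], sum_const, nsmul_eq_mul, mul_one]
    rw [h1]
  · push Not at h
    obtain ⟨v0, hv0, h0⟩ := h
    have h1 : v0 ⬝ᵥ w = 1 := by
      revert h0
      generalize v0 ⬝ᵥ w = t
      revert t
      decide
    have h2 : ∑ v ∈ K, sgn (v ⬝ᵥ w) = ∑ v ∈ K, sgn ((v0 + v) ⬝ᵥ w) := by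
      refine sum_bij' (fun v _ => v0 + v) (fun v _ => v0 + v) ?_ ?_ ?_ ?_ ?_
      · intro v hv
        exact hK.2 v0 hv0 v hv
      · intro v hv
        exact hK.2 v0 hv0 v hv
      · intro v _
        rw [← add_assoc, add_self_eq, zero_add]
      · intro v _
        rw [← add_assoc, add_self_eq, zero_add]
      · intro v _
        rw [← add_assoc, add_self_eq, zero_add]
    have h3 : ∀ v : Fin n → ZMod 2, sgn ((v0 + v) ⬝ᵥ w) = - sgn (v ⬝ᵥ w) := by
      intro v
      have h5 : sgn 1 = -1 := rfl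
      rw [add_dotProduct, sgn_add, h1, h5, neg_one_mul]
    rw [sum_congr rfl fun v _ => h3 v, sum_neg_distrib] at h2
    have h4 : ∑ v ∈ K, sgn (v ⬝ᵥ w) = 0 := by linarith
    rw [h4]
    exact dvd_zero _

theorem extend {K : Finset (Fin n → ZMod 2)} (hK : IsSub K) {x : Fin n → ZMod 2} (hx : x ∉ K) :
    IsSub (K ∪ K.image fun a => x + a) ∧ (K ∪ K.image fun a => x + a).card = 2 * K.card := by
  classical
  constructor
  · refine ⟨mem_union_left _ hK.1, ?_⟩
    intro a ha b hb
    rcases mem_union.1 ha with ha | ha <;> rcases mem_union.1 hb with hb | hb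
    · exact mem_union_left _ (hK.2 a ha b hb)
    · obtain ⟨c, hc, rfl⟩ := mem_image.1 hb
      refine mem_union_right _ (mem_image.2 ⟨a + c, hK.2 a ha c hc, ?_⟩)
      abel
    · obtain ⟨c, hc, rfl⟩ := mem_image.1 ha
      refine mem_union_right _ (mem_image.2 ⟨c + b, hK.2 c hc b hb, ?_⟩)
      abel
    · obtain ⟨c, hc, rfl⟩ := mem_image.1 ha
      obtain ⟨d, hd, rfl⟩ := mem_image.1 hb
      refine mem_union_left _ ?_
      have h1 : x + c + (x + d) = c + d := by
        calc x + c + (x + d) = (x + x) + (c + d) := by abel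
          _ = c + d := by rw [add_self_eq, zero_add]
      rw [h1]
      exact hK.2 c hc d hd
  · have hdis : Disjoint K (K.image fun a => x + a) := by
      rw [disjoint_left]
      intro b hb hb2
      obtain ⟨a, ha, rfl⟩ := mem_image.1 hb2
      apply hx
      have h1 : x + a + a = x := by rw [add_assoc, add_self_eq, add_zero]
      rw [← h1]
      exact hK.2 _ hb _ ha
    rw [card_union_of_disjoint hdis, card_image_of_injective _ (add_right_injective x)]
    ring

/-- GREEDY. If `(|B| + 1) 2^(j-1) < |H|` there is a subspace of order `2^j` in `H` which avoids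
`B`. -/
theorem greedy {H B : Finset (Fin n → ZMod 2)} (hH : IsSub H) (hB : (0 : Fin n → ZMod 2) ∉ B)
    (m : ℕ) (hm : 2 ^ m * (B.card + 1) < H.card) (j : ℕ) (hj : j ≤ m + 1) :
    ∃ K : Finset (Fin n → ZMod 2), IsSub K ∧ K ⊆ H ∧ Disjoint K B ∧ K.card = 2 ^ j := by
  classical
  induction j with
  | zero =>
    refine ⟨{0}, isSub_zero, ?_, ?_, ?_⟩
    · intro v hv
      rw [mem_singleton] at hv
      rw [hv]
      exact hH.1
    · rw [disjoint_left]
      intro v hv
      rw [mem_singleton] at hv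
      rw [hv]
      exact hB
    · simp
  | succ j ih =>
    obtain ⟨K, hK, hKH, hKB, hKc⟩ := ih (by omega)
    -- the bad points
    obtain ⟨x, hxH, hx⟩ : ∃ x ∈ H, x ∉ K ∪ (K ×ˢ B).image fun p => p.1 + p.2 := by
      by_contra hcon
      push Not at hcon
      have h1 : H ⊆ K ∪ (K ×ˢ B).image fun p => p.1 + p.2 := fun x hx => hcon x hx
      have h2 := (card_le_card h1).trans (card_union_le _ _)
      have h3 : ((K ×ˢ B).image fun p : (Fin n → ZMod 2) × (Fin n → ZMod 2) => p.1 + p.2).card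
          ≤ K.card * B.card := by
        refine card_image_le.trans ?_
        rw [card_product]
      have h4 : K.card ≤ 2 ^ m := by
        rw [hKc]
        exact Nat.pow_le_pow_right (by norm_num) (by omega)
      have h5 : H.card ≤ 2 ^ m * (B.card + 1) := by
        calc H.card ≤ K.card + K.card * B.card := h2.trans (Nat.add_le_add_left h3 _)
          _ = K.card * (B.card + 1) := by ring
          _ ≤ 2 ^ m * (B.card + 1) := Nat.mul_le_mul_right _ h4
      omega
    have hxK : x ∉ K := fun h => hx (mem_union_left _ h)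
    obtain ⟨e1, e2⟩ := extend hK hxK
    refine ⟨K ∪ K.image fun a => x + a, e1, ?_, ?_, ?_⟩
    · intro v hv
      rcases mem_union.1 hv with hv | hv
      · exact hKH hv
      · obtain ⟨a, ha, rfl⟩ := mem_image.1 hv
        exact hH.2 x hxH a (hKH ha)
    · rw [disjoint_union_left]
      refine ⟨hKB, ?_⟩
      rw [disjoint_left]
      intro v hv hvB
      obtain ⟨a, ha, rfl⟩ := mem_image.1 hv
      apply hx
      refine mem_union_right _ (mem_image.2 ⟨(a, x + a), mem_product.2 ⟨ha, hvB⟩, ?_⟩)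
      change a + (x + a) = x
      calc a + (x + a) = x + (a + a) := by abel
        _ = x := by rw [add_self_eq, add_zero]
    · rw [e2, hKc]
      ring

/-- The hyperplane of `z`. -/
def hyp (z : Fin n → ZMod 2) : Finset (Fin n → ZMod 2) := univ.filter fun v => v ⬝ᵥ z = 0

theorem mem_hyp {z v : Fin n → ZMod 2} : v ∈ hyp z ↔ v ⬝ᵥ z = 0 := by
  unfold hyp
  simp

theorem isSub_hyp (z : Fin n → ZMod 2) : IsSub (hyp z) := by
  constructor
  · rw [mem_hyp, zero_dotProduct]
  · intro a ha b hb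
    rw [mem_hyp] at ha hb ⊢
    rw [add_dotProduct, ha, hb, add_zero]

theorem card_hyp {z : Fin n → ZMod 2} (hz : z ≠ 0) : 2 * (hyp z).card = 2 ^ n := by
  classical
  have h1 : ∑ v : Fin n → ZMod 2, (sgn (v ⬝ᵥ z) + 1) = 2 ^ n := by
    rw [sum_add_distrib, sum_sgn, if_neg hz]
    simp [ZMod.card]
  have h2 : ∀ v : Fin n → ZMod 2, sgn (v ⬝ᵥ z) + 1 = 2 * if v ⬝ᵥ z = 0 then 1 else 0 := by
    intro v
    generalize v ⬝ᵥ z = t
    revert t
    decide
  rw [sum_congr rfl fun v _ => h2 v, ← mul_sum] at h1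
  have h3 : ((hyp z).card : ℤ) = ∑ v : Fin n → ZMod 2, if v ⬝ᵥ z = 0 then 1 else 0 := by
    unfold hyp
    rw [card_filter]
    push_cast
    rfl
  rw [← h3] at h1
  exact_mod_cast h1

end Pool.Agent.ABF
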