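import Mathlib

set_option autoImplicit false

/-!
# The Walsh transform and sums of three values (MP_d7c7d1_co)
-/

namespace Pool.Agent.ABF

open Finset

/-- The sign `(-1)^t`. -/
def sgn (t : ZMod 2) : ℤ := if t = 0 then 1 else -1

theorem sgn_add (s t : ZMod 2) : sgn (s + t) = sgn s * sgn t := by
  revert s t
  decide

theorem sgn_zero : sgn 0 = 1 := rfl

/-- The Walsh coefficient of `F` at `(u, v)`. -/
def walsh {n : ℕ} (F : (Fin n → ZMod 2) → (Fin n → ZMod 2)) (u v : Fin n → ZMod 2) : ℤ :=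
  ∑ x, sgn (u ⬝ᵥ x + v ⬝ᵥ F x)

/-- `F` is almost perfect nonlinear: for `a ≠ 0` the equation `F (x + a) + F x = b` has at most two
solutions. -/
def IsAPN {n : ℕ} (F : (Fin n → ZMod 2) → (Fin n → ZMod 2)) : Prop :=
  ∀ a b : Fin n → ZMod 2, a ≠ 0 → (univ.filter fun x => F (x + a) + F x = b).card ≤ 2

variable {n : ℕ}

theorem add_self_eq (x : Fin n → ZMod 2) : x + x = 0 := by
  funext i
  exact CharTwo.add_self_eq_zero (x i)

theorem add_eq_zero_iff' (x y : Fin n → ZMod 2) : x + y = 0 ↔ x = y := by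
  constructor
  · intro h
    have h1 : x + y + y = y := by rw [h, zero_add]
    rw [add_assoc, add_self_eq, add_zero] at h1
    exact h1
  · rintro rfl
    exact add_self_eq x

theorem sum_sgn (z : Fin n → ZMod 2) :
    ∑ u : Fin n → ZMod 2, sgn (u ⬝ᵥ z) = if z = 0 then 2 ^ n else 0 := by
  split_ifs with hz
  · subst hz
    simp [sgn]
  · obtain ⟨i, hi⟩ : ∃ i, z i ≠ 0 := by
      by_contra h
      push Not at h
      exact hz (funext h)
    have hi1 : z i = 1 := by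
      revert hi
      generalize z i = t
      revert t
      decide
    obtain ⟨s, hs⟩ : ∃ s : Fin n → ZMod 2, s = Pi.single i 1 := ⟨_, rfl⟩
    have h1 : ∑ u : Fin n → ZMod 2, sgn (u ⬝ᵥ z)
        = ∑ u : Fin n → ZMod 2, sgn ((u + s) ⬝ᵥ z) :=
      (Equiv.sum_comp (Equiv.addRight s) (fun u : Fin n → ZMod 2 => sgn (u ⬝ᵥ z))).symm
    have h2 : ∀ u : Fin n → ZMod 2, sgn ((u + s) ⬝ᵥ z) = - sgn (u ⬝ᵥ z) := by
      intro u
      rw [add_dotProduct, sgn_add, hs, single_dotProduct, hi1]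
      simp [sgn]
    rw [sum_congr rfl fun u _ => h2 u, sum_neg_distrib] at h1
    linarith

/-- Orthogonality for a finite family. -/
theorem sum_family {ι : Type*} [Fintype ι] (p r : ι → Fin n → ZMod 2) :
    ∑ u : Fin n → ZMod 2, ∑ v : Fin n → ZMod 2, ∑ i, sgn (u ⬝ᵥ p i + v ⬝ᵥ r i)
      = 2 ^ n * 2 ^ n * ((univ.filter fun i => p i = 0 ∧ r i = 0).card : ℤ) := by
  have h1 : ∑ u : Fin n → ZMod 2, ∑ v : Fin n → ZMod 2, ∑ i, sgn (u ⬝ᵥ p i + v ⬝ᵥ r i)
      = ∑ i, (∑ u : Fin n → ZMod 2, sgn (u ⬝ᵥ p i)) * ∑ v : Fin n → ZMod 2, sgn (v ⬝ᵥ r i) := by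
    calc ∑ u : Fin n → ZMod 2, ∑ v : Fin n → ZMod 2, ∑ i, sgn (u ⬝ᵥ p i + v ⬝ᵥ r i)
        = ∑ u : Fin n → ZMod 2, ∑ i, ∑ v : Fin n → ZMod 2, sgn (u ⬝ᵥ p i + v ⬝ᵥ r i) :=
          sum_congr rfl fun u _ => sum_comm
      _ = ∑ i, ∑ u : Fin n → ZMod 2, ∑ v : Fin n → ZMod 2, sgn (u ⬝ᵥ p i + v ⬝ᵥ r i) := sum_comm
      _ = ∑ i, (∑ u : Fin n → ZMod 2, sgn (u ⬝ᵥ p i)) * ∑ v : Fin n → ZMod 2,
          sgn (v ⬝ᵥ r i) := by
          refine sum_congr rfl fun i _ => ?_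
          rw [sum_mul_sum]
          exact sum_congr rfl fun u _ => sum_congr rfl fun v _ => sgn_add _ _
  rw [h1]
  simp_rw [sum_sgn]
  rw [card_filter]
  push_cast
  rw [mul_sum]
  refine sum_congr rfl fun i _ => ?_
  by_cases h2 : p i = 0 <;> by_cases h3 : r i = 0 <;> simp [h2, h3]

/-- The set of the ordered triples with the sums `x` and `y`. -/
def sol (F : (Fin n → ZMod 2) → (Fin n → ZMod 2)) (x y : Fin n → ZMod 2) :
    Finset ((Fin n → ZMod 2) × (Fin n → ZMod 2) × (Fin n → ZMod 2)) :=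
  univ.filter fun t => t.1 + t.2.1 + t.2.2 = x ∧ F t.1 + F t.2.1 + F t.2.2 = y

theorem walsh_cube (F : (Fin n → ZMod 2) → (Fin n → ZMod 2)) (u v x y : Fin n → ZMod 2) :
    walsh F u v ^ 3 * sgn (u ⬝ᵥ x + v ⬝ᵥ y)
      = ∑ t : (Fin n → ZMod 2) × (Fin n → ZMod 2) × (Fin n → ZMod 2),
        sgn (u ⬝ᵥ (t.1 + t.2.1 + t.2.2 + x) + v ⬝ᵥ (F t.1 + F t.2.1 + F t.2.2 + y)) := by
  rw [Fintype.sum_prod_type]
  simp_rw [Fintype.sum_prod_type]
  have h1 : walsh F u v ^ 3 * sgn (u ⬝ᵥ x + v ⬝ᵥ y)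
      = (∑ a, sgn (u ⬝ᵥ a + v ⬝ᵥ F a)) * ((∑ b, sgn (u ⬝ᵥ b + v ⬝ᵥ F b)) *
        ((∑ c, sgn (u ⬝ᵥ c + v ⬝ᵥ F c)) * sgn (u ⬝ᵥ x + v ⬝ᵥ y))) := by
    unfold walsh
    ring
  rw [h1, sum_mul]
  refine sum_congr rfl fun a _ => ?_
  rw [sum_mul, mul_sum]
  refine sum_congr rfl fun b _ => ?_
  rw [sum_mul, mul_sum, mul_sum]
  refine sum_congr rfl fun c _ => ?_
  rw [← sgn_add, ← sgn_add, ← sgn_add]
  congr 1
  simp only [dotProduct_add]
  ring

theorem walsh_one (F : (Fin n → ZMod 2) → (Fin n → ZMod 2)) (u v x y : Fin n → ZMod 2) :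
    walsh F u v * sgn (u ⬝ᵥ x + v ⬝ᵥ y)
      = ∑ a : Fin n → ZMod 2, sgn (u ⬝ᵥ (a + x) + v ⬝ᵥ (F a + y)) := by
  unfold walsh
  rw [sum_mul]
  refine sum_congr rfl fun a _ => ?_
  rw [← sgn_add]
  congr 1
  simp only [dotProduct_add]
  ring

theorem walsh_zero (F : (Fin n → ZMod 2) → (Fin n → ZMod 2)) (u : Fin n → ZMod 2) :
    walsh F u 0 = if u = 0 then 2 ^ n else 0 := by
  unfold walsh
  simp only [zero_dotProduct, add_zero]
  rw [← sum_sgn u]
  exact sum_congr rfl fun x _ => by rw [dotProduct_comm]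

theorem card_vec : Fintype.card (Fin n → ZMod 2) = 2 ^ n := by
  simp [ZMod.card]

/-- `G` has no four distinct points with sum `0` whose values have sum `0`. -/
def Sid (G : (Fin n → ZMod 2) → (Fin n → ZMod 2)) : Prop :=
  ∀ a b c x : Fin n → ZMod 2, a + b + c = x → G a + G b + G c = G x → a = b ∨ a = c ∨ b = c

theorem IsAPN.sid {G : (Fin n → ZMod 2) → (Fin n → ZMod 2)} (hG : IsAPN G) : Sid G := by
  classical
  intro a b c x h1 h2
  by_contra hcon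
  push Not at hcon
  obtain ⟨hab, hac, hbc⟩ := hcon
  have hd : a + b ≠ 0 := fun h => hab ((add_eq_zero_iff' a b).1 h)
  have e1 : a + (a + b) = b := by rw [← add_assoc, add_self_eq, zero_add]
  have e2 : b + (a + b) = a := by rw [add_comm a b, ← add_assoc, add_self_eq, zero_add]
  have e3 : c + (a + b) = x := by rw [add_comm, h1]
  have hsub : ({a, b, c} : Finset (Fin n → ZMod 2)) ⊆
      univ.filter fun z => G (z + (a + b)) + G z = G a + G b := by
    intro z hz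
    rw [mem_filter]
    refine ⟨mem_univ _, ?_⟩
    rw [mem_insert, mem_insert, mem_singleton] at hz
    rcases hz with rfl | rfl | rfl
    · rw [e1, add_comm]
    · rw [e2]
    · rw [e3, ← h2, add_assoc, add_self_eq, add_zero]
  have h3 := (card_le_card hsub).trans (hG (a + b) (G a + G b) hd)
  rw [card_eq_three.2 ⟨a, b, c, hab, hac, hbc, rfl⟩] at h3
  omega

theorem mem_sol {F : (Fin n → ZMod 2) → (Fin n → ZMod 2)} {x y a b c : Fin n → ZMod 2} :
    (a, b, c) ∈ sol F x y ↔ a + b + c = x ∧ F a + F b + F c = y := by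
  unfold sol
  rw [mem_filter]
  simp

end Pool.Agent.ABF
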